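import Pool.Agent.H71.NU.Stmts

/-!
# Module BOU: increasing bounds hold up to a small set
-/

namespace NU

open MeasureTheory MS

theorem sBou : SBou := by
  intro Ω _ μ _ G hG hmono hex ε hε
  have hanti : Antitone (fun n => (G n)ᶜ) :=
    antitone_nat_of_succ_le (fun n => Set.compl_subset_compl.2 (hmono n))
  have hlim := tendsto_measure_iInter_atTop (μ := μ) (s := fun n => (G n)ᶜ)
    (fun n => (hG n).compl.nullMeasurableSet) hanti ⟨0, measure_ne_top μ _⟩
  have hemp : ⋂ n, (G n)ᶜ = ∅ := by
    ext ω
    simp only [Set.mem_iInter, Set.mem_compl_iff, Set.mem_empty_iff_false, iff_false, not_forall,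
      not_not]
    exact hex ω
  rw [hemp, measure_empty] at hlim
  have := hlim.eventually_le_const hε
  obtain ⟨n, hn⟩ := this.exists
  exact ⟨n, hn⟩

end NU
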